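import Pool.Agent.H65.SFX.Ex

/-!
# THEOREM SF (MP_821da1_nt): `pk m c` has exactly `k` real zeros

Near every `2 c_i` there is a zero: `F x = x^m * ∏ (x - 2 c_i)` has opposite signs at `2 c_i ± 1`, values of absolute value
`> 2` there and `F (2 c_i) = 0`. It is the only one: `F'` has no zero at distance `≤ 2 / A^m` from `2 c_i`.
-/

set_option autoImplicit false

open Polynomial Finset

namespace Pool.Agent.H65.SFX

/-- the function -/
private def F {k : ℕ} (m : ℕ) (c : Fin k → ℕ) (x : ℝ) : ℝ := x ^ m * ∏ i, (x - 2 * (c i : ℝ))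

private theorem root_iff {k : ℕ} (m : ℕ) (c : Fin k → ℕ) (α : ℝ) : aeval α (pk m c) = 0 ↔ F m c α = 2 := by
  unfold pk F
  rw [map_sub, map_mul, map_pow, aeval_X, map_prod]
  simp only [map_sub, aeval_X, map_mul, map_ofNat, map_natCast]
  constructor <;> intro h <;> linarith

private theorem F_cont {k : ℕ} (m : ℕ) (c : Fin k → ℕ) : Continuous (F m c) := by
  unfold F
  fun_prop

private theorem sep {k : ℕ} {c : Fin k → ℕ} (hc : Function.Injective c) {i j : Fin k} (h : j ≠ i) :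
    (2 : ℝ) ≤ |2 * (c i : ℝ) - 2 * (c j : ℝ)| := by
  have hne : c i ≠ c j := fun h' => h (hc h').symm
  have h7 : (1 : ℤ) ≤ |(c i : ℤ) - c j| := Int.one_le_abs (sub_ne_zero.2 (by exact_mod_cast hne))
  have h8 : (1 : ℝ) ≤ |(c i : ℝ) - c j| := by exact_mod_cast h7
  have h9 : 2 * (c i : ℝ) - 2 * (c j : ℝ) = 2 * ((c i : ℝ) - c j) := by ring
  rw [h9, abs_mul, abs_of_pos (by norm_num : (0 : ℝ) < 2)]
  linarith

/-- a zero near `2 c_i` -/
private theorem ex_root {k : ℕ} {m : ℕ} (hm : 2 ≤ m) (c : Fin k → ℕ) (hc : Function.Injective c) {A : ℝ} (hA : 3 ≤ A)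
    (hAc : ∀ i, A ≤ 2 * (c i : ℝ)) (i : Fin k) : ∃ α : ℝ, F m c α = 2 ∧ |α - 2 * (c i : ℝ)| ≤ 1 := by
  obtain ⟨a, ha⟩ : ∃ a : ℝ, a = 2 * (c i : ℝ) := ⟨_, rfl⟩
  have haA : A ≤ a := by rw [ha]; exact hAc i
  rw [← ha]
  have h0 : F m c a = 0 := by
    unfold F
    rw [prod_eq_zero (mem_univ i) (by rw [ha]; ring), mul_zero]
  have habs : ∀ e : ℝ, |e| = 1 → 2 < |F m c (a + e)| := by
    intro e he
    obtain ⟨he1, he2⟩ := abs_le.1 he.le
    unfold F
    rw [abs_mul, abs_pow, abs_prod]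
    have h1 : (2 : ℝ) ≤ |a + e| := by
      rw [abs_of_pos (by linarith)]
      linarith
    have h2 : (4 : ℝ) ≤ |a + e| ^ m := by
      calc (4 : ℝ) = 2 ^ 2 := by norm_num
        _ ≤ 2 ^ m := pow_le_pow_right₀ (by norm_num) hm
        _ ≤ |a + e| ^ m := pow_le_pow_left₀ (by norm_num) h1 m
    have h3 : ∏ j : Fin k, (1 : ℝ) ≤ ∏ j, |a + e - 2 * (c j : ℝ)| := by
      refine prod_le_prod (fun _ _ => zero_le_one) fun j _ => ?_
      by_cases hj : j = i
      · rw [hj, ← ha, add_sub_cancel_left, he]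
      · have h4 := sep hc hj
        rw [← ha] at h4
        have h5 : |a - 2 * (c j : ℝ)| ≤ |a + e - 2 * (c j : ℝ)| + |e| := by
          have := abs_sub (a + e - 2 * (c j : ℝ)) e
          rwa [show a + e - 2 * (c j : ℝ) - e = a - 2 * (c j : ℝ) by ring] at this
        linarith
    rw [prod_const_one] at h3
    nlinarith
  have hsgn : F m c (a + 1) * F m c (a + -1) < 0 := by
    have e1 : F m c (a + 1) * F m c (a + -1) = ((a + 1) * (a + -1)) ^ m * ∏ j, ((a - 2 * (c j : ℝ)) ^ 2 - 1) := by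
      unfold F
      rw [mul_mul_mul_comm, ← mul_pow, ← prod_mul_distrib]
      congr 1
      exact prod_congr rfl fun j _ => by ring
    have e2 : 0 < ((a + 1) * (a + -1)) ^ m := pow_pos (mul_pos (by linarith) (by linarith)) m
    rw [e1, ← mul_prod_erase _ _ (mem_univ i)]
    have e3 : 0 < ∏ j ∈ univ.erase i, ((a - 2 * (c j : ℝ)) ^ 2 - 1) := by
      refine prod_pos fun j hj => ?_
      have h4 := sep hc (mem_erase.1 hj).1
      rw [← ha] at h4
      have h5 : (4 : ℝ) ≤ (a - 2 * (c j : ℝ)) ^ 2 := by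
        rw [← sq_abs]
        nlinarith
      linarith
    have e4 : (a - 2 * (c i : ℝ)) ^ 2 - 1 = -1 := by rw [ha]; ring
    rw [e4]
    have := mul_pos e2 e3
    linarith
  rcases lt_or_ge (F m c (a + 1)) 0 with hneg | hpos
  · have h1 : 0 < F m c (a + -1) := pos_of_mul_neg_right hsgn hneg.le
    have h2 := habs (-1) (by norm_num)
    rw [abs_of_pos h1] at h2
    have hiv := intermediate_value_Icc' (by linarith : a + -1 ≤ a) (F_cont m c).continuousOn
    obtain ⟨α, hα, hαe⟩ := hiv ⟨by rw [h0]; norm_num, h2.le⟩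
    refine ⟨α, hαe, abs_le.2 ⟨by linarith [hα.1], by linarith [hα.2]⟩⟩
  · have h2 := habs 1 (by norm_num)
    rw [abs_of_nonneg hpos] at h2
    have hiv := intermediate_value_Icc (by linarith : a ≤ a + 1) (F_cont m c).continuousOn
    obtain ⟨α, hα, hαe⟩ := hiv ⟨by rw [h0]; norm_num, h2.le⟩
    refine ⟨α, hαe, abs_le.2 ⟨by linarith [hα.1], by linarith [hα.2]⟩⟩

/-- no critical point near `2 c_i` -/
private theorem no_crit {k : ℕ} {m : ℕ} (c : Fin k → ℕ) (hc : Function.Injective c) {A : ℝ} (hA : 3 ≤ A)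
    (hAc : ∀ i, A ≤ 2 * (c i : ℝ)) {e : ℝ} (he : e ≤ 1) (hek : e * (m + k) < 1) (i : Fin k) {γ : ℝ}
    (hγ : |γ - 2 * (c i : ℝ)| ≤ e) : deriv (F m c) γ ≠ 0 := by
  classical
  obtain ⟨a, ha⟩ : ∃ a : ℝ, a = 2 * (c i : ℝ) := ⟨_, rfl⟩
  have haA : A ≤ a := by rw [ha]; exact hAc i
  rw [← ha] at hγ
  obtain ⟨hγ1, hγ2⟩ := abs_le.1 hγ
  have hγ0 : 1 ≤ γ := by linarith
  obtain ⟨G, hG⟩ : ∃ G : ℝ → ℝ, G = fun x => x ^ m * ∏ j ∈ univ.erase i, (x - 2 * (c j : ℝ)) := ⟨_, rfl⟩
  have hFG : F m c = fun x => (x - a) * G x := by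
    funext x
    rw [hG, F, ← mul_prod_erase _ _ (mem_univ i), ha]
    ring
  have hne : ∀ j ∈ univ.erase i, 1 ≤ |γ - 2 * (c j : ℝ)| := by
    intro j hj
    have h4 := sep hc (mem_erase.1 hj).1
    rw [← ha] at h4
    have h5 : |a - 2 * (c j : ℝ)| ≤ |γ - 2 * (c j : ℝ)| + |γ - a| := by
      have := abs_sub (γ - 2 * (c j : ℝ)) (γ - a)
      rwa [show γ - 2 * (c j : ℝ) - (γ - a) = a - 2 * (c j : ℝ) by ring] at this
    linarith
  have hGd : DifferentiableAt ℝ G γ := by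
    rw [hG]
    fun_prop
  have hG0 : G γ ≠ 0 := by
    rw [hG]
    refine mul_ne_zero (pow_ne_zero _ (by linarith)) (prod_ne_zero_iff.2 fun j hj h0 => ?_)
    have := hne j hj
    rw [h0, abs_zero] at this
    linarith
  -- the logarithmic derivative
  have hlog : |deriv G γ| ≤ (m + k) * |G γ| := by
    have h1 : logDeriv G γ = m / γ + ∑ j ∈ univ.erase i, 1 / (γ - 2 * (c j : ℝ)) := by
      have hp : ∏ j ∈ univ.erase i, (γ - 2 * (c j : ℝ)) ≠ 0 := prod_ne_zero_iff.2 fun j hj h0 => by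
        have := hne j hj
        rw [h0, abs_zero] at this
        linarith
      rw [hG, logDeriv_mul (f := fun x : ℝ => x ^ m) (g := fun x : ℝ => ∏ j ∈ univ.erase i, (x - 2 * (c j : ℝ))) γ
        (pow_ne_zero _ (by linarith)) hp (by fun_prop) (by fun_prop), logDeriv_pow,
        logDeriv_prod (s := univ.erase i) (f := fun j (x : ℝ) => x - 2 * (c j : ℝ))
          (fun j hj => (prod_ne_zero_iff.1 hp) j hj) (fun j _ => by fun_prop)]
      congr 1
      refine sum_congr rfl fun j _ => ?_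
      simp [logDeriv_apply]
    have h2 : |logDeriv G γ| ≤ m + k := by
      rw [h1]
      refine (abs_add_le _ _).trans (add_le_add ?_ ?_)
      · rw [abs_div, abs_of_nonneg (by positivity : (0 : ℝ) ≤ m), abs_of_pos (by linarith)]
        exact div_le_self (by positivity) hγ0
      · refine (abs_sum_le_sum_abs _ _).trans ?_
        refine (sum_le_sum (g := fun _ => (1 : ℝ)) fun j hj => ?_).trans ?_
        · rw [abs_div, abs_one]
          exact div_le_one_of_le₀ (hne j hj) (abs_nonneg _)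
        · rw [sum_const, nsmul_eq_mul, mul_one]
          have : (univ.erase i).card ≤ k := (card_le_card (erase_subset _ _)).trans (by simp)
          exact_mod_cast this
    have h3 : deriv G γ = logDeriv G γ * G γ := by
      rw [logDeriv_apply, div_mul_cancel₀ _ hG0]
    rw [h3, abs_mul]
    exact mul_le_mul_of_nonneg_right h2 (abs_nonneg _)
  have hder : deriv (F m c) γ = G γ + (γ - a) * deriv G γ := by
    rw [hFG]
    have h1 : HasDerivAt (fun x : ℝ => x - a) 1 γ := (hasDerivAt_id γ).sub_const a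
    have h2 := h1.mul hGd.hasDerivAt
    have h3 : HasDerivAt (fun x => (x - a) * G x) (1 * G γ + (γ - a) * deriv G γ) γ := h2
    rw [h3.deriv, one_mul]
  rw [hder]
  intro h0
  have h1 : |G γ| = |(γ - a) * deriv G γ| := by
    rw [← abs_neg ((γ - a) * deriv G γ)]
    congr 1
    linarith
  have h2 : |(γ - a) * deriv G γ| ≤ e * ((m + k) * |G γ|) := by
    rw [abs_mul]
    exact mul_le_mul hγ hlog (abs_nonneg _) ((abs_nonneg _).trans hγ)
  have h3 : 0 < |G γ| := abs_pos.2 hG0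
  nlinarith

/-- exactly `k` real zeros -/
theorem pk_count {k m A : ℕ} {c : Fin k → ℕ} (hk : Odd k) (hm : Even m) (hm2 : 2 ≤ m) (hc : Function.Injective c)
    (h1 : ∀ i, A ≤ 2 * c i) (hA : 2 ^ (m + k) ≤ A) : {α : ℝ | aeval α (pk m c) = 0}.ncard = k := by
  have hk1 : 1 ≤ k := hk.pos
  have hA8 : 8 ≤ A := by
    have : 2 ^ 3 ≤ 2 ^ (m + k) := Nat.pow_le_pow_right (by norm_num) (by omega)
    omega
  have hA8R : (8 : ℝ) ≤ A := by exact_mod_cast hA8
  have hA0 : (0 : ℝ) < A := by linarith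
  have hAc : ∀ i, (A : ℝ) ≤ 2 * (c i : ℝ) := fun i => by exact_mod_cast h1 i
  have hA3 : (3 : ℝ) ≤ A := by linarith
  obtain ⟨e, he⟩ : ∃ e : ℝ, e = 2 / (A : ℝ) ^ m := ⟨_, rfl⟩
  have hAm : (A : ℝ) ^ 2 ≤ (A : ℝ) ^ m := pow_le_pow_right₀ (by linarith) hm2
  have he0 : 0 < e := by rw [he]; positivity
  have hemk : e * (m + k) < 1 := by
    have e1 : (m + k : ℕ) < 2 ^ (m + k) := Nat.lt_two_pow_self
    have e2 : ((m : ℝ) + k) < A := by
      have e3 : ((m + k : ℕ) : ℝ) < ((2 ^ (m + k) : ℕ) : ℝ) := by exact_mod_cast e1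
      have e4 : ((2 ^ (m + k) : ℕ) : ℝ) ≤ A := by exact_mod_cast hA
      push_cast at e3 e4
      linarith
    rw [he, div_mul_eq_mul_div, div_lt_one (by positivity)]
    have e5 : (0 : ℝ) ≤ (m : ℝ) + k := by positivity
    nlinarith
  have he1 : e < 1 := by
    have e5 : (1 : ℝ) ≤ (m : ℝ) + k := by exact_mod_cast (by omega : 1 ≤ m + k)
    nlinarith
  -- the zeros
  choose z hz1 hz2 using fun i => ex_root hm2 c hc hA3 hAc i
  have hnear : ∀ α : ℝ, F m c α = 2 → ∀ i : Fin k, |α - 2 * (c i : ℝ)| ≤ 1 → |α - 2 * (c i : ℝ)| ≤ e := by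
    intro α hα i hi
    obtain ⟨j, hj⟩ := pk_root hm hk c hc hA0 hAc ((root_iff m c α).2 hα)
    rw [← he] at hj
    by_cases hji : j = i
    · rwa [hji] at hj
    · exfalso
      have h4 := sep hc hji
      have h5 : |2 * (c i : ℝ) - 2 * (c j : ℝ)| ≤ |α - 2 * (c j : ℝ)| + |α - 2 * (c i : ℝ)| := by
        have := abs_sub (α - 2 * (c j : ℝ)) (α - 2 * (c i : ℝ))
        rwa [show α - 2 * (c j : ℝ) - (α - 2 * (c i : ℝ)) = 2 * (c i : ℝ) - 2 * (c j : ℝ) by ring] at this
      linarith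
  have huniq : ∀ α β : ℝ, F m c α = 2 → F m c β = 2 → ∀ i : Fin k, |α - 2 * (c i : ℝ)| ≤ e → |β - 2 * (c i : ℝ)| ≤ e →
      ¬ α < β := by
    intro α β hα hβ i hαi hβi hlt
    obtain ⟨γ, hγ, hγd⟩ := exists_deriv_eq_zero hlt (F_cont m c).continuousOn (hα.trans hβ.symm)
    refine no_crit c hc hA3 hAc he1.le hemk i ?_ hγd
    have h5 := abs_le.1 hαi
    have h6 := abs_le.1 hβi
    exact abs_le.2 ⟨by linarith [hγ.1], by linarith [hγ.2]⟩
  have hset : {α : ℝ | aeval α (pk m c) = 0} = Set.range z := by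
    ext α
    rw [Set.mem_ofPred_eq, Set.mem_range, root_iff]
    constructor
    · intro hα
      obtain ⟨i, hi⟩ := pk_root hm hk c hc hA0 hAc ((root_iff m c α).2 hα)
      rw [← he] at hi
      refine ⟨i, ?_⟩
      have h5 := hnear _ (hz1 i) i (hz2 i)
      rcases lt_trichotomy (z i) α with h | h | h
      · exact absurd h (huniq _ _ (hz1 i) hα i h5 hi)
      · exact h
      · exact absurd h (huniq _ _ hα (hz1 i) i hi h5)
    · rintro ⟨i, rfl⟩
      exact hz1 i
  have hinj : Function.Injective z := by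
    intro i j hij
    by_contra hne
    have h4 := sep hc (i := i) (j := j) fun h => hne h.symm
    have h5 := hnear _ (hz1 i) i (hz2 i)
    have h6 := hnear _ (hz1 j) j (hz2 j)
    rw [← hij] at h6
    have h7 : |2 * (c i : ℝ) - 2 * (c j : ℝ)| ≤ |z i - 2 * (c j : ℝ)| + |z i - 2 * (c i : ℝ)| := by
      have := abs_sub (z i - 2 * (c j : ℝ)) (z i - 2 * (c i : ℝ))
      rwa [show z i - 2 * (c j : ℝ) - (z i - 2 * (c i : ℝ)) = 2 * (c i : ℝ) - 2 * (c j : ℝ) by ring] at this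
    linarith
  rw [hset, Set.ncard_range_of_injective hinj, Nat.card_eq_fintype_card, Fintype.card_fin]

end Pool.Agent.H65.SFX
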