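import Mathlib

/-!
# THEOREM SF (MP_821da1_nt): a family of fields with `k` real places

`pk m c = X^m * ∏ i, (X - 2 c_i) - 2`, `m ≥ 1`: monic, irreducible over `ℤ` (Eisenstein at `2`), coefficients at most
`∏ (1 + 2 c_i) + 2`. If `m` is even, `k` odd, the `c_i` distinct positive and `A ≤ 2 c_i`: every real root is at distance at
most `2 / A^m` from one of the `2 c_i`.
-/

set_option autoImplicit false

open Polynomial Finset

namespace Pool.Agent.H65.SFX

/-- the family -/
noncomputable def pk {k : ℕ} (m : ℕ) (c : Fin k → ℕ) : ℤ[X] := X ^ m * ∏ i, (X - C (2 * (c i : ℤ))) - C 2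

private theorem prod_monic {k : ℕ} (c : Fin k → ℕ) : (∏ i, (X - C (2 * (c i : ℤ)))).Monic :=
  monic_prod_of_monic _ _ fun _ _ => monic_X_sub_C _

private theorem prod_deg {k : ℕ} (c : Fin k → ℕ) : (∏ i, (X - C (2 * (c i : ℤ)))).natDegree = k := by
  rw [natDegree_prod_of_monic _ _ fun i _ => monic_X_sub_C _]
  simp only [natDegree_X_sub_C, sum_const, card_univ, Fintype.card_fin, smul_eq_mul, mul_one]

private theorem main_monic {k : ℕ} (m : ℕ) (c : Fin k → ℕ) : (X ^ m * ∏ i, (X - C (2 * (c i : ℤ)))).Monic :=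
  (monic_X_pow m).mul (prod_monic c)

private theorem main_deg {k : ℕ} (m : ℕ) (c : Fin k → ℕ) :
    (X ^ m * ∏ i, (X - C (2 * (c i : ℤ)))).natDegree = m + k := by
  rw [(monic_X_pow m).natDegree_mul (prod_monic c), natDegree_X_pow, prod_deg]

theorem pk_deg {k : ℕ} (m : ℕ) (c : Fin k → ℕ) : (pk m c).natDegree = m + k := by
  unfold pk
  rw [natDegree_sub_C, main_deg]

theorem pk_monic {k : ℕ} {m : ℕ} (hm : 1 ≤ m) (c : Fin k → ℕ) : (pk m c).Monic := by
  unfold pk
  refine (main_monic m c).sub_of_left ?_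
  rw [degree_eq_natDegree (main_monic m c).ne_zero, main_deg]
  refine lt_of_le_of_lt degree_C_le ?_
  exact_mod_cast (by omega : 0 < m + k)

/-- Eisenstein at `2` -/
theorem pk_irr {k : ℕ} {m : ℕ} (hm : 1 ≤ m) (c : Fin k → ℕ) : Irreducible (pk m c) := by
  have hmap : (pk m c).map (Int.castRingHom (ZMod 2)) = X ^ (m + k) := by
    unfold pk
    rw [Polynomial.map_sub, Polynomial.map_mul, Polynomial.map_pow, map_X, Polynomial.map_prod, map_C]
    have h1 : ∀ i : Fin k, (X - C (2 * (c i : ℤ)) : ℤ[X]).map (Int.castRingHom (ZMod 2)) = X := by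
      intro i
      rw [Polynomial.map_sub, map_X, map_C]
      have h2 : (Int.castRingHom (ZMod 2)) (2 * (c i : ℤ)) = 0 := by
        rw [map_mul]
        have h3 : (Int.castRingHom (ZMod 2)) 2 = 0 := by decide
        rw [h3, zero_mul]
      rw [h2, C_0, sub_zero]
    rw [prod_congr rfl fun i _ => h1 i, prod_const, card_univ, Fintype.card_fin, ← pow_add]
    have h3 : (Int.castRingHom (ZMod 2)) 2 = 0 := by decide
    rw [h3, C_0, sub_zero]
  have hprime : (Ideal.span {(2 : ℤ)}).IsPrime := by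
    rw [Ideal.span_singleton_prime (by norm_num)]
    exact Int.prime_two
  have hcoeff : ∀ n : ℕ, n < m + k → (pk m c).coeff n ∈ Ideal.span {(2 : ℤ)} := by
    intro n hn
    rw [Ideal.mem_span_singleton]
    have h1 : ((pk m c).map (Int.castRingHom (ZMod 2))).coeff n = 0 := by
      rw [hmap, coeff_X_pow, if_neg (by omega)]
    rw [coeff_map] at h1
    have h2 : (((pk m c).coeff n : ℤ) : ZMod 2) = 0 := h1
    have h4 := (ZMod.intCast_zmod_eq_zero_iff_dvd _ 2).1 h2
    exact_mod_cast h4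
  have hmon := pk_monic hm c
  have hdeg := pk_deg m c
  refine Polynomial.irreducible_of_eisenstein_criterion hprime ?_ ?_ ?_ ?_ hmon.isPrimitive
  · rw [hmon.leadingCoeff, Ideal.mem_span_singleton]
    norm_num
  · intro n hn
    rw [degree_eq_natDegree hmon.ne_zero, hdeg] at hn
    exact hcoeff n (by exact_mod_cast hn)
  · rw [degree_eq_natDegree hmon.ne_zero, hdeg]
    exact_mod_cast (by omega : 0 < m + k)
  · have h0 : (pk m c).coeff 0 = -2 := by
      rw [coeff_zero_eq_eval_zero]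
      unfold pk
      rw [eval_sub, eval_mul, eval_pow, eval_X, eval_C, zero_pow (by omega), zero_mul, zero_sub]
    rw [h0, Ideal.span_singleton_pow, Ideal.mem_span_singleton]
    norm_num

/-- every real root is near one of the `2 c_i` -/
theorem pk_root {k : ℕ} {m : ℕ} (hme : Even m) (hk : Odd k) (c : Fin k → ℕ) (hc : Function.Injective c) {A : ℝ}
    (hA : 0 < A) (hAc : ∀ i, A ≤ 2 * (c i : ℝ)) {α : ℝ} (hα : aeval α (pk m c) = 0) :
    ∃ i, |α - 2 * (c i : ℝ)| ≤ 2 / A ^ m := by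
  have h1 : α ^ m * ∏ i, (α - 2 * (c i : ℝ)) = 2 := by
    unfold pk at hα
    rw [map_sub, map_mul, map_pow, aeval_X, map_prod] at hα
    simp only [map_sub, aeval_X, map_mul, map_ofNat, map_natCast] at hα
    linarith
  -- some `2 c_i` is smaller than `α`
  have h2 : ∃ j, 2 * (c j : ℝ) < α := by
    by_contra hcon
    push Not at hcon
    have h3 : ∏ i, (α - 2 * (c i : ℝ)) = (-1) ^ k * ∏ i, (2 * (c i : ℝ) - α) := by
      have h4 : ∀ i : Fin k, (α - 2 * (c i : ℝ)) = (-1) * (2 * (c i : ℝ) - α) := fun i => by ring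
      rw [prod_congr rfl fun i _ => h4 i, prod_mul_distrib, prod_const, card_univ, Fintype.card_fin]
    have h4 : 0 ≤ ∏ i, (2 * (c i : ℝ) - α) := prod_nonneg fun i _ => by linarith [hcon i]
    rw [h3, hk.neg_one_pow] at h1
    have h5 : 0 ≤ α ^ m := hme.pow_nonneg α
    have h6 := mul_nonneg h5 h4
    nlinarith
  obtain ⟨j, hj⟩ := h2
  have hαA : A < α := lt_of_le_of_lt (hAc j) hj
  have hpow : A ^ m ≤ α ^ m := pow_le_pow_left₀ hA.le hαA.le m
  have hApos : 0 < A ^ m := pow_pos hA m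
  have hαpos : 0 < α ^ m := lt_of_lt_of_le hApos hpow
  have h3 : |∏ i, (α - 2 * (c i : ℝ))| ≤ 2 / A ^ m := by
    have h4 : ∏ i, (α - 2 * (c i : ℝ)) = 2 / α ^ m := by
      rw [eq_div_iff hαpos.ne', mul_comm]
      exact h1
    rw [h4, abs_of_pos (by positivity)]
    exact div_le_div_of_nonneg_left (by norm_num) hApos hpow
  -- the nearest one
  have hkpos : 0 < k := hk.pos
  have : Nonempty (Fin k) := ⟨⟨0, hkpos⟩⟩
  obtain ⟨i, hi⟩ := Finite.exists_min fun i : Fin k => |α - 2 * (c i : ℝ)|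
  refine ⟨i, le_trans ?_ h3⟩
  rw [abs_prod, ← mul_prod_erase _ _ (mem_univ i)]
  refine le_mul_of_one_le_right (abs_nonneg _) ?_
  have h5 : ∏ j ∈ univ.erase i, (1 : ℝ) ≤ ∏ j ∈ univ.erase i, |α - 2 * (c j : ℝ)| := by
    refine prod_le_prod (fun _ _ => zero_le_one) fun j hj => ?_
    have hne : c i ≠ c j := fun h => (mem_erase.1 hj).1 (hc h).symm
    have h6 : (2 : ℝ) ≤ |2 * (c i : ℝ) - 2 * (c j : ℝ)| := by
      have h7 : (1 : ℤ) ≤ |(c i : ℤ) - c j| := Int.one_le_abs (sub_ne_zero.2 (by exact_mod_cast hne))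
      have h8 : (1 : ℝ) ≤ |(c i : ℝ) - c j| := by exact_mod_cast h7
      have h9 : 2 * (c i : ℝ) - 2 * (c j : ℝ) = 2 * ((c i : ℝ) - c j) := by ring
      rw [h9, abs_mul, abs_of_pos (by norm_num : (0 : ℝ) < 2)]
      linarith
    have h7 : |2 * (c i : ℝ) - 2 * (c j : ℝ)| ≤ |α - 2 * (c i : ℝ)| + |α - 2 * (c j : ℝ)| := by
      have h8 : 2 * (c i : ℝ) - 2 * (c j : ℝ) = (α - 2 * (c j : ℝ)) - (α - 2 * (c i : ℝ)) := by ring
      rw [h8]
      have := abs_sub (α - 2 * (c j : ℝ)) (α - 2 * (c i : ℝ))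
      linarith
    have h8 := hi j
    linarith
  rwa [prod_const_one] at h5

end Pool.Agent.H65.SFX
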