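import Pool.Agent.H65.SFX.Spc
import Pool.Agent.H65.SFX.Cnt

/-!
# THEOREM SF (MP_821da1_nt), clause (c): special fields with exactly `k` real places, `k` odd
-/

set_option autoImplicit false

open Polynomial

namespace Pool.Agent.H65.SFX

open Pool.Agent.H85.SF

/-- clause (c) of THEOREM SF -/
theorem sf_c (k m A κ : ℕ) (c : Fin k → ℕ) (hk : Odd k) (hm : Even m) (hc : Function.Injective c)
    (hA : ∀ i, A ≤ 2 * c i ∧ c i ≤ A) (h2 : 2 ^ (m + k) ≤ A) (hκ : κ * (k + 3) + 1 ≤ (m + k) * m) :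
    Special (X ^ m * ∏ i, (X - C (2 * (c i : ℤ))) - 2) ((2 * A + 1) ^ k + 2) κ ∧
      {α : ℝ | aeval α (X ^ m * ∏ i, (X - C (2 * (c i : ℤ))) - 2 : ℤ[X]) = 0}.ncard = k := by
  have hm0 : m ≠ 0 := by
    rintro rfl
    simp at hκ
  have hm2 : 2 ≤ m := by
    obtain ⟨j, hj⟩ := hm
    omega
  have h1 : (X ^ m * ∏ i, (X - C (2 * (c i : ℤ))) - 2 : ℤ[X]) = pk m c := by
    unfold pk
    rw [map_ofNat]
  rw [h1]
  exact ⟨pk_special hk hm hc (fun i => (hA i).1) (fun i => (hA i).2) h2 hκ,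
    pk_count hk hm hm2 hc (fun i => (hA i).1) h2⟩

end Pool.Agent.H65.SFX
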