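import Pool.Agent.H65.SFX.Ex
import Pool.Agent.H85.SF.Def

/-!
# THEOREM SF (MP_821da1_nt): the fields with `k` real places are special

`pk_mahler`: the Mahler measure of `pk m c` is at most `∏ (1 + 2 c_i) + 2` (coefficientwise comparison with
`X^m * ∏ (X + 2 c_i) + 2`). `pk_special`: `Special (pk m c) ((2 A + 1)^k + 2) κ`.
-/

set_option autoImplicit false

open Polynomial Finset

namespace Pool.Agent.H65.SFX

open Pool.Agent.H85.SF

/-- coefficientwise comparison -/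
private theorem coef_le {ι : Type*} (s : Finset ι) (a : ι → ℤ) (ha : ∀ i, 0 ≤ a i) (n : ℕ) :
    |(∏ i ∈ s, (X - C (a i))).coeff n| ≤ (∏ i ∈ s, (X + C (a i))).coeff n := by
  classical
  induction s using Finset.induction_on generalizing n with
  | empty =>
    simp only [prod_empty, coeff_one]
    split_ifs <;> simp
  | insert i s hi ih =>
    rw [prod_insert hi, prod_insert hi]
    rcases n with _ | n
    · rw [mul_coeff_zero, mul_coeff_zero, abs_mul]
      refine mul_le_mul ?_ (ih 0) (abs_nonneg _) ?_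
      · simp [abs_of_nonneg (ha i)]
      · simp [ha i]
    · rw [sub_mul, add_mul, coeff_sub, coeff_add, coeff_X_mul, coeff_X_mul, coeff_C_mul, coeff_C_mul]
      refine (abs_sub _ _).trans ?_
      rw [abs_mul, abs_of_nonneg (ha i)]
      exact add_le_add (ih n) (mul_le_mul_of_nonneg_left (ih (n + 1)) (ha i))

/-- the comparison polynomial -/
private noncomputable def Qk {k : ℕ} (m : ℕ) (c : Fin k → ℕ) : ℤ[X] := X ^ m * ∏ i, (X + C (2 * (c i : ℤ))) + C 2

private theorem pk_coef {k : ℕ} (m : ℕ) (c : Fin k → ℕ) (n : ℕ) : |(pk m c).coeff n| ≤ (Qk m c).coeff n := by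
  unfold pk Qk
  rw [coeff_sub, coeff_add]
  refine (abs_sub _ _).trans (add_le_add ?_ ?_)
  · rw [coeff_X_pow_mul', coeff_X_pow_mul']
    split_ifs with h
    · exact coef_le univ (fun i => 2 * (c i : ℤ)) (fun i => by positivity) _
    · simp
  · rw [coeff_C]
    split_ifs <;> simp

private theorem Qk_deg {k : ℕ} (m : ℕ) (c : Fin k → ℕ) : (Qk m c).natDegree < m + k + 1 := by
  unfold Qk
  have h1 : (∏ i, (X + C (2 * (c i : ℤ)))).natDegree ≤ k := by
    refine (natDegree_prod_le _ _).trans ?_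
    refine (sum_le_sum fun i _ => (natDegree_X_add_C _).le).trans ?_
    simp
  have h2 : (X ^ m * ∏ i, (X + C (2 * (c i : ℤ))) : ℤ[X]).natDegree ≤ m + k :=
    natDegree_mul_le.trans (add_le_add (natDegree_X_pow_le m) h1)
  refine lt_of_le_of_lt (natDegree_add_le _ _) ?_
  rw [natDegree_C]
  exact max_lt (by omega) (by omega)

theorem pk_mahler {k : ℕ} (m : ℕ) (c : Fin k → ℕ) :
    ((pk m c).map (Int.castRingHom ℂ)).mahlerMeasure ≤ ∏ i, (1 + 2 * (c i : ℝ)) + 2 := by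
  refine (mahlerMeasure_le_sum_norm_coeff _).trans ?_
  have hd : ((pk m c).map (Int.castRingHom ℂ)).natDegree < m + k + 1 := by
    refine lt_of_le_of_lt (natDegree_map_le) ?_
    rw [pk_deg]
    omega
  rw [sum_over_range' _ (fun _ => norm_zero) _ hd]
  have h1 : ∀ n ∈ range (m + k + 1), ‖((pk m c).map (Int.castRingHom ℂ)).coeff n‖ ≤ ((Qk m c).coeff n : ℝ) := by
    intro n _
    rw [coeff_map]
    have h2 : (Int.castRingHom ℂ) ((pk m c).coeff n) = (((pk m c).coeff n : ℤ) : ℂ) := rfl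
    rw [h2, Complex.norm_intCast]
    exact_mod_cast pk_coef m c n
  refine (sum_le_sum h1).trans (le_of_eq ?_)
  have h2 : (Qk m c).eval 1 = ∑ n ∈ range (m + k + 1), (Qk m c).coeff n := by
    rw [eval_eq_sum_range' (Qk_deg m c)]
    simp
  have h3 : (Qk m c).eval 1 = ∏ i, (1 + 2 * (c i : ℤ)) + 2 := by
    unfold Qk
    rw [eval_add, eval_mul, eval_pow, eval_X, one_pow, one_mul, eval_prod, eval_C]
    simp
  rw [h3] at h2
  have h4 := congrArg (Int.cast : ℤ → ℝ) h2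
  push_cast at h4
  rw [h4]

theorem pk_special {k m A κ : ℕ} {c : Fin k → ℕ} (hk : Odd k) (hm : Even m) (hc : Function.Injective c)
    (h1 : ∀ i, A ≤ 2 * c i) (h2 : ∀ i, c i ≤ A) (hA : 2 ^ (m + k) ≤ A) (hκ : κ * (k + 3) + 1 ≤ (m + k) * m) :
    Special (pk m c) ((2 * A + 1) ^ k + 2) κ := by
  have hm0 : m ≠ 0 := by
    rintro rfl
    simp at hκ
  have hm2 : 2 ≤ m := by
    obtain ⟨j, hj⟩ := hm
    omega
  have hk1 : 1 ≤ k := hk.pos
  have hA8 : 8 ≤ A := by
    have : 2 ^ 3 ≤ 2 ^ (m + k) := Nat.pow_le_pow_right (by norm_num) (by omega)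
    omega
  have hA0 : (0 : ℝ) < A := by exact_mod_cast (by omega : 0 < A)
  have hAR : (2 : ℝ) ^ (m + k) ≤ A := by exact_mod_cast hA
  refine ⟨pk_monic (by omega) c, pk_irr (by omega) c, by rw [pk_deg]; omega, ?_, ?_⟩
  · refine (pk_mahler m c).trans ?_
    push_cast
    have h3 : ∏ i, (1 + 2 * (c i : ℝ)) ≤ ∏ _i : Fin k, (2 * (A : ℝ) + 1) := by
      refine prod_le_prod (fun i _ => by positivity) fun i _ => ?_
      have : (c i : ℝ) ≤ A := by exact_mod_cast h2 i
      linarith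
    rw [prod_const, card_univ, Fintype.card_fin] at h3
    linarith
  · intro α hα
    have hAc : ∀ i, (A : ℝ) ≤ 2 * (c i : ℝ) := fun i => by exact_mod_cast h1 i
    obtain ⟨i, hi⟩ := pk_root hm hk c hc hA0 hAc hα
    have hB : 2 * A + 1 ≤ (2 * A + 1) ^ k := Nat.le_self_pow (by omega) _
    have hci := h2 i
    refine ⟨2 * (c i : ℤ), 1, le_rfl, ?_, ?_, ?_⟩
    · rw [abs_of_nonneg (by positivity)]
      exact_mod_cast (by omega : 2 * c i ≤ (2 * A + 1) ^ k + 2)
    · exact_mod_cast (by omega : 1 ≤ (2 * A + 1) ^ k + 2)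
    · rw [pk_deg]
      have e1 : |α - ((2 * (c i : ℤ) : ℤ) : ℝ) / ((1 : ℤ) : ℝ)| ≤ 2 / A ^ m := by
        push_cast
        rw [div_one]
        exact hi
      -- `2 ^ r * B ≤ A ^ (k + 3)`
      have hA3 : (2 * A + 1) ^ k + 2 ≤ 4 ^ k * A ^ k := by
        have e2 : (2 * A + 1) ^ k ≤ (3 * A) ^ k := Nat.pow_le_pow_left (by omega) k
        rw [mul_pow] at e2
        have e3 : 3 ^ k + 1 ≤ 4 ^ k := Nat.pow_lt_pow_left (by norm_num) (by omega)
        have e4 : (3 ^ k + 1) * A ^ k ≤ 4 ^ k * A ^ k := Nat.mul_le_mul_right _ e3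
        have e5 : A ≤ A ^ k := Nat.le_self_pow (by omega) _
        nlinarith
      have hA4 : 4 ^ k ≤ A ^ 2 := by
        have e2 : 4 ^ k = 2 ^ (2 * k) := by rw [pow_mul]; norm_num
        have e3 : (2 ^ (m + k)) ^ 2 ≤ A ^ 2 := Nat.pow_le_pow_left hA 2
        rw [e2]
        refine le_trans ?_ e3
        rw [← pow_mul]
        exact Nat.pow_le_pow_right (by norm_num) (by omega)
      have hAB : 2 ^ (m + k) * ((2 * A + 1) ^ k + 2) ≤ A ^ (k + 3) := by
        calc 2 ^ (m + k) * ((2 * A + 1) ^ k + 2) ≤ A * (4 ^ k * A ^ k) := Nat.mul_le_mul hA hA3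
          _ ≤ A * (A ^ 2 * A ^ k) := Nat.mul_le_mul_left _ (Nat.mul_le_mul_right _ hA4)
          _ = A ^ (k + 3) := by ring
      have hABR : (2 : ℝ) ^ (m + k) * (((2 * A + 1) ^ k + 2 : ℕ) : ℝ) ≤ (A : ℝ) ^ (k + 3) := by exact_mod_cast hAB
      have hABκ : ((2 : ℝ) ^ (m + k) * (((2 * A + 1) ^ k + 2 : ℕ) : ℝ)) ^ κ ≤ (A : ℝ) ^ (κ * (k + 3)) := by
        refine (pow_le_pow_left₀ (by positivity) hABR κ).trans (le_of_eq ?_)
        rw [← pow_mul, mul_comm]
      have e6 : |α - ((2 * (c i : ℤ) : ℤ) : ℝ) / ((1 : ℤ) : ℝ)| ^ (m + k) ≤ 2 ^ (m + k) / (A : ℝ) ^ ((m + k) * m) := by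
        refine (pow_le_pow_left₀ (abs_nonneg _) e1 (m + k)).trans (le_of_eq ?_)
        rw [div_pow, ← pow_mul, mul_comm m]
      calc _ ≤ 2 ^ (m + k) / (A : ℝ) ^ ((m + k) * m) * (A : ℝ) ^ (κ * (k + 3)) :=
            mul_le_mul e6 hABκ (by positivity) (by positivity)
        _ ≤ 1 := by
            rw [div_mul_eq_mul_div, div_le_one (by positivity)]
            calc (2 : ℝ) ^ (m + k) * (A : ℝ) ^ (κ * (k + 3)) ≤ A * (A : ℝ) ^ (κ * (k + 3)) :=
                  mul_le_mul_of_nonneg_right hAR (by positivity)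
              _ = (A : ℝ) ^ (κ * (k + 3) + 1) := by ring
              _ ≤ (A : ℝ) ^ ((m + k) * m) := pow_le_pow_right₀ (by exact_mod_cast (by omega : 1 ≤ A)) hκ

end Pool.Agent.H65.SFX
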